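import Pool.Agent.K3h16.MI.Stm

set_option autoImplicit false

open MeasureTheory Set Filter Topology
open scoped ContDiff

namespace Pool.Agent.K3h13.MI

open Pool.Agent.K3h16.MI

variable {m : ℕ}

/-- determinant as a continuous multilinear map of the rows -/
noncomputable def DD (m : ℕ) : ContinuousMultilinearMap ℝ (fun _ : Fin m => Fin m → ℝ) ℝ :=
  ⟨(Matrix.detRowAlternating (n := Fin m) (R := ℝ)).toMultilinearMap, by
    exact (continuous_id.matrix_det : Continuous fun v : Matrix (Fin m) (Fin m) ℝ => v.det)⟩

theorem DD_eq (v : Fin m → Fin m → ℝ) :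
    DD m v = Matrix.detRowAlternating (n := Fin m) (R := ℝ) v := rfl

theorem DD_det (v : Fin m → Fin m → ℝ) : DD m v = Matrix.det (Matrix.of v) := rfl

theorem DD_swap (c : Fin m → Fin m → ℝ) {i j : Fin m} (hij : i ≠ j) (a b : Fin m → ℝ) :
    DD m (Function.update (Function.update c i a) j b) =
      - DD m (Function.update (Function.update c i b) j a) := by
  have h := (Matrix.detRowAlternating (n := Fin m) (R := ℝ)).map_swap
    (Function.update (Function.update c i a) j b) hij
  have h2 : (Function.update (Function.update c i a) j b) ∘ (Equiv.swap i j) =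
      Function.update (Function.update c i b) j a := by
    funext k
    rw [Function.comp_apply]
    by_cases hki : k = i
    · subst hki
      rw [Equiv.swap_apply_left, Function.update_self, Function.update_of_ne hij,
        Function.update_self]
    · by_cases hkj : k = j
      · subst hkj
        rw [Equiv.swap_apply_right, Function.update_of_ne hij, Function.update_self,
          Function.update_self]
      · rw [Equiv.swap_apply_of_ne_of_ne hki hkj, Function.update_of_ne hkj,
          Function.update_of_ne hki, Function.update_of_ne hkj, Function.update_of_ne hki]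
  rw [h2] at h
  rw [DD_eq, DD_eq, h, neg_neg]

theorem DD_expand (c : Fin m → Fin m → ℝ) (l : Fin m) (a : Fin m → ℝ) :
    DD m (Function.update c l a) = ∑ k, a k * DD m (Function.update c l (Pi.single k 1)) := by
  have ha : a = ∑ k, a k • (Pi.single k (1 : ℝ) : Fin m → ℝ) := by
    funext j
    simp [Finset.sum_apply, Pi.single_apply]
  conv_lhs => rw [ha]
  refine ((DD m).toMultilinearMap.map_update_sum Finset.univ l
    (fun k => a k • (Pi.single k (1 : ℝ) : Fin m → ℝ)) c).trans ?_
  refine Finset.sum_congr rfl fun k _ => ?_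
  exact (DD m).toMultilinearMap.map_update_smul c l (a k) _

theorem DD_der {P : Type} [NormedAddCommGroup P] [NormedSpace ℝ P]
    (φ : Fin m → P → (Fin m → ℝ)) (φ' : Fin m → P →L[ℝ] (Fin m → ℝ)) (p : P)
    (h : ∀ β, HasFDerivAt (φ β) (φ' β) p) :
    ∀ v, fderiv ℝ (fun q => DD m (fun β => φ β q)) p v =
      ∑ β, DD m (Function.update (fun γ => φ γ p) β (φ' β v)) := by
  have h1 : HasFDerivAt (fun q β => φ β q) (ContinuousLinearMap.pi φ') p := hasFDerivAt_pi.2 h
  have h2 : HasFDerivAt (fun q => DD m (fun β => φ β q))
      (((DD m).linearDeriv (fun β => φ β p)).comp (ContinuousLinearMap.pi φ')) p :=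
    ((DD m).hasFDerivAt (fun β => φ β p)).comp p h1
  intro v
  rw [h2.fderiv, ContinuousLinearMap.comp_apply, ContinuousMultilinearMap.linearDeriv_apply]
  rfl

/-- the basis vectors -/
noncomputable abbrev eb (b : Fin m) : E m := EuclideanSpace.single b 1

/-- the rows of the matrix with row `i` replaced by a unit vector -/
noncomputable def R (i : Fin m) (φ : Fin m → E m → ℝ) (b l : Fin m) (v : E m) : Fin m → ℝ :=
  if l = i then Pi.single b 1 else fun k => fderiv ℝ (φ l) v (eb k)

/-- the cofactors -/
noncomputable def Cof (i : Fin m) (φ : Fin m → E m → ℝ) (b : Fin m) (v : E m) : ℝ :=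
  DD m fun l => R i φ b l v

theorem row_smooth {f : E m → ℝ} (hf : ContDiff ℝ ∞ f) :
    ContDiff ℝ ∞ (fun v => (fun k => fderiv ℝ f v (eb k) : Fin m → ℝ)) := by
  rw [contDiff_pi]
  intro k
  exact (hf.fderiv_right (m := ∞) (by simp)).clm_apply contDiff_const

theorem Cof_smooth (i : Fin m) (φ : Fin m → E m → ℝ) (hφ : ∀ j, j ≠ i → ContDiff ℝ ∞ (φ j))
    (b : Fin m) : ContDiff ℝ ∞ (Cof i φ b) := by
  have h1 : ContDiff ℝ ∞ (fun v => (fun l => R i φ b l v : Fin m → Fin m → ℝ)) := by
    rw [contDiff_pi]
    intro l
    unfold R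
    by_cases hl : l = i
    · simp only [if_pos hl]
      exact contDiff_const
    · simp only [if_neg hl]
      exact row_smooth (hφ l hl)
  exact (DD m).contDiff.comp h1

theorem piola (i : Fin m) (φ : Fin m → E m → ℝ) (hφ : ∀ j, j ≠ i → ContDiff ℝ ∞ (φ j))
    (u : E m) : ∑ b, fderiv ℝ (Cof i φ b) u (eb b) = 0 := by
  classical
  let h : Fin m → Fin m → Fin m → ℝ := fun l b k =>
    fderiv ℝ (fderiv ℝ (φ l)) u (eb b) (eb k)
  have hd : ∀ b, fderiv ℝ (Cof i φ b) u (eb b) = ∑ l, if l = i then 0 else
      ∑ k, h l b k * DD m (Function.update (fun γ => R i φ b γ u) l (Pi.single k 1)) := by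
    intro b
    let R' : Fin m → E m →L[ℝ] (Fin m → ℝ) := fun l => if l = i then 0 else
      ContinuousLinearMap.pi fun k =>
        (ContinuousLinearMap.apply ℝ ℝ (eb k)).comp (fderiv ℝ (fderiv ℝ (φ l)) u)
    have hR : ∀ l, HasFDerivAt (R i φ b l) (R' l) u := by
      intro l
      by_cases hl : l = i
      · have e1 : R i φ b l = fun _ => Pi.single b 1 := by
          funext v
          simp only [R, if_pos hl]
        have e2 : R' l = 0 := by simp only [R', if_pos hl]
        rw [e1, e2]
        exact hasFDerivAt_const _ _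
      · have e1 : R i φ b l = fun v k => fderiv ℝ (φ l) v (eb k) := by
          funext v
          simp only [R, if_neg hl]
        have e2 : R' l = ContinuousLinearMap.pi fun k =>
            (ContinuousLinearMap.apply ℝ ℝ (eb k)).comp (fderiv ℝ (fderiv ℝ (φ l)) u) := by
          simp only [R', if_neg hl]
        rw [e1, e2]
        refine hasFDerivAt_pi.2 fun k => ?_
        have h1 : DifferentiableAt ℝ (fderiv ℝ (φ l)) u :=
          (((hφ l hl).fderiv_right (m := ∞) (by simp)).differentiable (by simp)).differentiableAt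
        exact ((ContinuousLinearMap.apply ℝ ℝ (eb k)).hasFDerivAt).comp u h1.hasFDerivAt
    have h2 := DD_der (fun l => R i φ b l) R' u hR (eb b)
    refine h2.trans (Finset.sum_congr rfl fun l _ => ?_)
    by_cases hl : l = i
    · have e2 : R' l (eb b) = 0 := by simp only [R', if_pos hl]; rfl
      rw [if_pos hl, e2]
      exact (DD m).map_coord_zero l (Function.update_self _ _ _)
    · have e2 : R' l (eb b) = fun k => h l b k := by
        simp only [R', if_neg hl]
        rfl
      rw [if_neg hl, e2, DD_expand]
  rw [Finset.sum_congr rfl fun b _ => hd b, Finset.sum_comm]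
  refine Finset.sum_eq_zero fun l _ => ?_
  by_cases hl : l = i
  · simp [hl]
  · simp only [if_neg hl]
    have hsym : ∀ b k, h l b k = h l k b := by
      intro b k
      have hs : IsSymmSndFDerivAt ℝ (φ l) u :=
        ((hφ l hl).contDiffAt).isSymmSndFDerivAt (by
          simp only [minSmoothness_of_isRCLikeNormedField]
          exact WithTop.coe_le_coe.2 le_top)
      exact hs.eq (eb b) (eb k)
    have hrow : ∀ b k, (Function.update (fun γ => R i φ b γ u) l (Pi.single k 1)) =
        Function.update (Function.update (fun γ => fun k => fderiv ℝ (φ γ) u (eb k)) i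
          (Pi.single b 1)) l (Pi.single k 1) := by
      intro b k
      congr 1
      funext γ
      by_cases hγ : γ = i
      · subst hγ
        rw [Function.update_self]
        simp [R]
      · rw [Function.update_of_ne hγ]
        simp [R, hγ]
    simp only [hrow]
    set X := ∑ b, ∑ k, h l b k * DD m (Function.update (Function.update
      (fun γ => fun k => fderiv ℝ (φ γ) u (eb k)) i (Pi.single b 1)) l (Pi.single k 1)) with hX
    have h3 : X = -X := by
      conv_lhs => rw [hX, Finset.sum_comm]
      rw [hX, ← Finset.sum_neg_distrib]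
      refine Finset.sum_congr rfl fun b _ => ?_
      rw [← Finset.sum_neg_distrib]
      refine Finset.sum_congr rfl fun k _ => ?_
      rw [DD_swap _ (Ne.symm hl), hsym k b]
      ring
    exact self_eq_neg.1 h3

theorem t_PIOLA : S_PIOLA := by
  intro m i φ hφ hφi hc
  classical
  have hdet : ∀ u, Matrix.det (Matrix.of fun a b => fderiv ℝ (φ a) u (EuclideanSpace.single b 1)) =
      ∑ b, fderiv ℝ (φ i) u (eb b) * Cof i φ b u := by
    intro u
    have h1 := DD_expand (fun a b => fderiv ℝ (φ a) u (eb b)) i
      (fun b => fderiv ℝ (φ i) u (eb b))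
    have h2 : Function.update (fun a b => fderiv ℝ (φ a) u (eb b)) i
        (fun b => fderiv ℝ (φ i) u (eb b)) = fun a b => fderiv ℝ (φ a) u (eb b) :=
      Function.update_eq_self i _
    rw [h2] at h1
    refine (DD_det _).symm.trans (h1.trans (Finset.sum_congr rfl fun b _ => ?_))
    congr 1
    unfold Cof
    congr 1
    funext γ
    by_cases hγ : γ = i
    · subst hγ
      rw [Function.update_self]
      simp [R]
    · rw [Function.update_of_ne hγ]
      simp [R, hγ]
  have hCs : ∀ b, ContDiff ℝ ∞ (Cof i φ b) := Cof_smooth i φ hφ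
  have hcont1 : ∀ b, Continuous fun u => fderiv ℝ (φ i) u (eb b) := fun b =>
    (hφi.continuous_fderiv (by simp)).clm_apply continuous_const
  have hcont2 : ∀ b, Continuous fun u => fderiv ℝ (Cof i φ b) u (eb b) := fun b =>
    ((hCs b).continuous_fderiv (by simp)).clm_apply continuous_const
  have hcs1 : ∀ b, HasCompactSupport fun u => fderiv ℝ (φ i) u (eb b) := fun b =>
    hc.fderiv_apply (𝕜 := ℝ) (eb b)
  have hint1 : ∀ b, Integrable fun u => fderiv ℝ (φ i) u (eb b) * Cof i φ b u := fun b =>
    ((hcont1 b).mul (hCs b).continuous).integrable_of_hasCompactSupport ((hcs1 b).mul_right)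
  have hint2 : ∀ b, Integrable fun u => φ i u * fderiv ℝ (Cof i φ b) u (eb b) := fun b =>
    (hφi.continuous.mul (hcont2 b)).integrable_of_hasCompactSupport (hc.mul_right)
  have hint3 : ∀ b, Integrable fun u => φ i u * Cof i φ b u := fun b =>
    (hφi.continuous.mul (hCs b).continuous).integrable_of_hasCompactSupport (hc.mul_right)
  have hibp : ∀ b, ∫ u, fderiv ℝ (φ i) u (eb b) * Cof i φ b u =
      - ∫ u, φ i u * fderiv ℝ (Cof i φ b) u (eb b) := by
    intro b
    have h := integral_mul_fderiv_eq_neg_fderiv_mul_of_integrable (μ := volume) (v := eb b)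
      (hint1 b) (hint2 b) (hint3 b)
      (fun x _ => (hφi.differentiable (by simp)) x) (fun x _ => ((hCs b).differentiable (by simp)) x)
    rw [h, neg_neg]
  simp only [hdet]
  rw [integral_finsetSum _ fun b _ => hint1 b, Finset.sum_congr rfl fun b _ => hibp b,
    Finset.sum_neg_distrib, ← integral_finsetSum _ fun b _ => hint2 b]
  have h0 : ∀ u, ∑ b, φ i u * fderiv ℝ (Cof i φ b) u (eb b) = 0 := by
    intro u
    rw [← Finset.mul_sum, piola i φ hφ u, mul_zero]
  simp only [h0]
  simp

end Pool.Agent.K3h13.MI
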